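import Pool.Agent.UMG.StmtsB

/-!
# Squad UMG (MP_34c13a_lc), block B, row SLC: the edges of a self matched bundle
-/

set_option autoImplicit false

namespace Pool.Agent.UMG.B.H88

open Finset Pool.Agent.UMG Pool.Agent.UMG.B

theorem count_map_range (f : ℕ → ℕ × ℕ) (z : ℕ × ℕ) (n : ℕ) :
    ((List.range n).map f).count z = ∑ t ∈ range n, if f t = z then 1 else 0 := by
  induction n with
  | zero => simp
  | succ n ih =>
    rw [List.range_succ, List.map_append, List.count_append, ih, Finset.sum_range_succ]
    congr 1
    simp [List.count_cons]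

theorem slc : SlcStmt := by
  intro b hb h2 v w
  obtain ⟨i, hi⟩ := h2
  have hi2 : bsz b / 2 = i := by omega
  have hi0 : 0 < i := by omega
  unfold QQ Qc selfE
  rw [count_map_range, count_map_range, hi2]
  have h3 : Nat.card {h : Fin (bsz b) // nu1 b h = v ∧
      nu1 b (((finRotate (bsz b)) ^ i : Equiv.Perm (Fin (bsz b))) h) = w} =
      ∑ t ∈ range (bsz b), if b.1 + t % b.2.1 = v ∧ b.1 + ((t + i) % bsz b) % b.2.1 = w
        then 1 else 0 := by
    classical
    rw [Nat.card_eq_fintype_card, Fintype.card_subtype, Finset.card_filter,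
      Finset.sum_range (fun t => if b.1 + t % b.2.1 = v ∧ b.1 + ((t + i) % bsz b) % b.2.1 = w
        then 1 else 0)]
    apply Finset.sum_congr rfl
    intro t _
    unfold nu1
    rw [finRotate_pow_val]
  rw [h3]
  have h4 : ∀ g : ℕ → ℕ, ∑ t ∈ range (bsz b), g t =
      ∑ t ∈ range i, g t + ∑ t ∈ range i, g (i + t) := by
    intro g
    have : bsz b = i + i := by omega
    rw [this, Finset.sum_range_add]
  rw [h4]
  congr 1
  · apply Finset.sum_congr rfl
    intro t ht
    rw [mem_range] at ht
    have h5 : (t + i) % bsz b = t + i := Nat.mod_eq_of_lt (by omega)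
    rw [h5]
    simp only [Prod.mk.injEq]
  · apply Finset.sum_congr rfl
    intro t ht
    rw [mem_range] at ht
    have h5 : (i + t + i) % bsz b = t := by
      have : i + t + i = t + bsz b := by omega
      rw [this, Nat.add_mod_right]
      exact Nat.mod_eq_of_lt (by omega)
    rw [h5, Nat.add_comm i t]
    simp only [Prod.mk.injEq]
    congr 1
    exact propext and_comm

end Pool.Agent.UMG.B.H88
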