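import Pool.Agent.UMG.StmtsA

/-!
# Squad UMG (MP_34c13a_lc), block A, row NFA: the normal form
-/

set_option autoImplicit false

namespace Pool.Agent.UMG.A.H88

open Finset Pool.Agent.UMG

/-- the weights of the big cycles -/
noncomputable def wb (x : ℕ → ℝ) (k l : ℕ) : ℝ :=
  if l = 1 then 0 else if l = 2 ∧ k = 3 then 0 else hh x l k

theorem hh_nonneg (hmon : MonStmt) {x : ℕ → ℝ} (hx : ∀ i, 0 ≤ x i) (l k : ℕ) : 0 ≤ hh x l k :=
  (hmon (fun i => x (l * i)) (fun i => x (l * i)) k (fun _ _ _ => ⟨hx _, le_rfl⟩)).1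

theorem wb_nonneg (hmon : MonStmt) {x : ℕ → ℝ} (hx : ∀ i, 0 ≤ x i) (k l : ℕ) : 0 ≤ wb x k l := by
  unfold wb
  split_ifs
  · exact le_rfl
  · exact le_rfl
  · exact hh_nonneg hmon hx l k

/-- the exponent for one vertex of degree `k` -/
noncomputable def del (K : ℕ) (x : ℕ → ℝ) (k : ℕ) : ℝ :=
  ∑ i ∈ Ico (K + 1) (k + 1), x i * ((k : ℝ) / x 1) ^ i / i

theorem one_k (hmon : MonStmt) (hscl : SclStmt) (hcmb : CmbStmt) (hlow : LowStmt) {K : ℕ}
    {x : ℕ → ℝ} (hK : 1 ≤ K) (hx : ∀ i, 0 ≤ x i) (hx1 : 0 < x 1) (k n : ℕ) :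
    0 ≤ aa x k n ∧ aa x k n ≤ E (ws K x k) n * Real.exp ((n : ℝ) * del K x k +
      ∑ l ∈ Icc 2 n, if l = 2 ∧ k = 3 then 0 else
        hh x l k * ((n : ℝ) * (k.factorial : ℝ) / x 1 ^ k) ^ l / l) := by
  obtain ⟨u, hu⟩ : ∃ u : ℝ, u = ws K x k 1 := ⟨_, rfl⟩
  have hu1 : u = E (fun i => if i ≤ K then x i else 0) k := by
    rw [hu]
    unfold ws
    rw [if_pos rfl]
  have hw1 : ∀ l, 0 ≤ (fun i => if i ≤ K then x i else 0) l := by
    intro l
    show 0 ≤ if l ≤ K then x l else 0
    split_ifs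
    · exact hx l
    · exact le_rfl
  have hkf : (0 : ℝ) < (k.factorial : ℝ) := by exact_mod_cast k.factorial_pos
  have hxk : 0 < x 1 ^ k := pow_pos hx1 k
  have hulow : x 1 ^ k / (k.factorial : ℝ) ≤ u := by
    have h := hlow (fun i => if i ≤ K then x i else 0) k hw1
    rw [← hu1] at h
    simpa [hK] using h
  have hupos : 0 < u := lt_of_lt_of_le (div_pos hxk hkf) hulow
  -- the exponent of the first step
  have hdel : del K x k = ∑ l ∈ Icc 1 k, (if l ≤ K then 0 else x l) *
      ((k : ℝ) / x 1) ^ l / l := by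
    unfold del
    have hsub : Ico (K + 1) (k + 1) ⊆ Icc 1 k := by
      intro i hi
      rw [mem_Ico] at hi
      rw [mem_Icc]
      omega
    rw [← Finset.sum_subset hsub]
    · apply Finset.sum_congr rfl
      intro i hi
      rw [mem_Ico] at hi
      rw [if_neg (by omega)]
    · intro i hi hi'
      rw [mem_Icc] at hi
      rw [mem_Ico] at hi'
      rw [if_pos (by omega), zero_mul, zero_div]
  have hdel0 : 0 ≤ del K x k := by
    unfold del
    apply Finset.sum_nonneg
    intro i _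
    have := hx i
    positivity
  have hh1 : hh x 1 k ≤ Real.exp (del K x k) * u := by
    have h := hcmb (fun i => if i ≤ K then x i else 0) (fun i => if i ≤ K then 0 else x i) k hw1
      (by
        intro l
        show 0 ≤ if l ≤ K then 0 else x l
        split_ifs
        · exact le_rfl
        · exact hx l) (by
        show 0 < if 1 ≤ K then x 1 else 0
        rw [if_pos hK]
        exact hx1)
    have e1 : (fun l => (if l ≤ K then x l else 0) + (if l ≤ K then 0 else x l)) =
        fun i => x (1 * i) := by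
      funext l
      rw [one_mul]
      split_ifs
      · rw [add_zero]
      · rw [zero_add]
    have e2 : (if 1 ≤ K then x 1 else 0) = x 1 := if_pos hK
    have h' : E (fun l => (if l ≤ K then x l else 0) + (if l ≤ K then 0 else x l)) k ≤
        E (fun i => if i ≤ K then x i else 0) k * Real.exp (∑ l ∈ Icc 1 k,
          (if l ≤ K then 0 else x l) * ((k : ℝ) / (if 1 ≤ K then x 1 else 0)) ^ l / l) := h
    rw [e1, e2, ← hdel, ← hu1, mul_comm] at h'
    exact h'
  -- the weights
  have hws0 : ∀ l, 0 ≤ ws K x k l := by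
    intro l
    unfold ws
    split_ifs
    · rw [← hu1]
      exact hupos.le
    · exact hh_nonneg hmon hx 2 3
    · exact le_rfl
  have hexp1 : 1 ≤ Real.exp (del K x k) := Real.one_le_exp hdel0
  have hstep : ∀ l, 1 ≤ l → hh x l k ≤ Real.exp (del K x k) ^ l * (ws K x k l + wb x k l) := by
    intro l hl
    have hp : 1 ≤ Real.exp (del K x k) ^ l := one_le_pow₀ hexp1
    by_cases h1 : l = 1
    · subst h1
      rw [pow_one]
      unfold wb
      rw [if_pos rfl, add_zero, ← hu]
      exact hh1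
    · by_cases h2 : l = 2 ∧ k = 3
      · obtain ⟨rfl, rfl⟩ := h2
        unfold ws wb
        simp only [if_neg h1, and_self, if_true, add_zero]
        exact le_mul_of_one_le_left (hh_nonneg hmon hx 2 3) hp
      · unfold ws wb
        rw [if_neg h1, if_neg h2, if_neg h1, if_neg h2, zero_add]
        exact le_mul_of_one_le_left (hh_nonneg hmon hx l k) hp
  have hmon1 := hmon (fun l => hh x l k)
    (fun l => Real.exp (del K x k) ^ l * (ws K x k l + wb x k l)) n
    (fun l hl _ => ⟨hh_nonneg hmon hx l k, hstep l hl⟩)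
  have haa : aa x k n = E (fun l => hh x l k) n := rfl
  rw [haa]
  refine ⟨hmon1.1, hmon1.2.trans ?_⟩
  rw [hscl (Real.exp (del K x k)) (fun l => ws K x k l + wb x k l) n]
  have hcm := hcmb (ws K x k) (wb x k) n hws0 (wb_nonneg hmon hx k) (by rw [← hu]; exact hupos)
  have hEws : 0 ≤ E (ws K x k) n :=
    (hmon (ws K x k) (ws K x k) n (fun l _ _ => ⟨hws0 l, le_rfl⟩)).1
  -- the second exponent
  have hsum : ∑ l ∈ Icc 1 n, wb x k l * ((n : ℝ) / ws K x k 1) ^ l / l ≤
      ∑ l ∈ Icc 2 n, if l = 2 ∧ k = 3 then 0 else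
        hh x l k * ((n : ℝ) * (k.factorial : ℝ) / x 1 ^ k) ^ l / l := by
    have hsub : Icc 2 n ⊆ Icc 1 n := by
      intro i hi
      rw [mem_Icc] at hi ⊢
      omega
    rw [← Finset.sum_subset hsub]
    · apply Finset.sum_le_sum
      intro l hl
      rw [mem_Icc] at hl
      unfold wb
      rw [if_neg (by omega)]
      by_cases h2 : l = 2 ∧ k = 3
      · rw [if_pos h2, if_pos h2, zero_mul, zero_div]
      · rw [if_neg h2, if_neg h2, ← hu]
        have hle : (n : ℝ) / u ≤ (n : ℝ) * (k.factorial : ℝ) / x 1 ^ k := by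
          have h3 : (n : ℝ) / u ≤ (n : ℝ) / (x 1 ^ k / (k.factorial : ℝ)) :=
            div_le_div_of_nonneg_left (Nat.cast_nonneg n) (div_pos hxk hkf) hulow
          rwa [div_div_eq_mul_div] at h3
        have h0 : 0 ≤ (n : ℝ) / u := div_nonneg (Nat.cast_nonneg n) hupos.le
        have h4 : ((n : ℝ) / u) ^ l ≤ ((n : ℝ) * (k.factorial : ℝ) / x 1 ^ k) ^ l :=
          pow_le_pow_left₀ h0 hle l
        exact div_le_div_of_nonneg_right
          (mul_le_mul_of_nonneg_left h4 (hh_nonneg hmon hx l k)) (Nat.cast_nonneg l)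
    · intro l hl hl'
      rw [mem_Icc] at hl hl'
      have : l = 1 := by omega
      subst this
      unfold wb
      rw [if_pos rfl, zero_mul, zero_div]
  calc Real.exp (del K x k) ^ n * E (fun l => ws K x k l + wb x k l) n
      ≤ Real.exp (del K x k) ^ n * (E (ws K x k) n *
        Real.exp (∑ l ∈ Icc 1 n, wb x k l * ((n : ℝ) / ws K x k 1) ^ l / l)) :=
        mul_le_mul_of_nonneg_left hcm (by positivity)
    _ ≤ Real.exp (del K x k) ^ n * (E (ws K x k) n *
        Real.exp (∑ l ∈ Icc 2 n, if l = 2 ∧ k = 3 then 0 else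
        hh x l k * ((n : ℝ) * (k.factorial : ℝ) / x 1 ^ k) ^ l / l)) := by
        apply mul_le_mul_of_nonneg_left _ (by positivity)
        exact mul_le_mul_of_nonneg_left (Real.exp_le_exp.2 hsum) hEws
    _ = _ := by
        rw [Real.exp_add, ← Real.exp_nat_mul]
        ring

theorem nfa (hmon : MonStmt) (hscl : SclStmt) (hcmb : CmbStmt) (hlow : LowStmt) : NfaStmt := by
  intro K x d hK hx hx1
  unfold PP PS AA
  have h1 : ∏ k ∈ d.toFinset, aa x k (d.count k) ≤ ∏ k ∈ d.toFinset, (E (ws K x k) (d.count k) *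
      Real.exp (((d.count k : ℕ) : ℝ) * del K x k +
        ∑ l ∈ Icc 2 (d.count k), if l = 2 ∧ k = 3 then 0 else
          hh x l k * (((d.count k : ℕ) : ℝ) * (k.factorial : ℝ) / x 1 ^ k) ^ l / l)) := by
    apply Finset.prod_le_prod
    · intro k _
      exact (one_k hmon hscl hcmb hlow hK hx hx1 k (d.count k)).1
    · intro k _
      exact (one_k hmon hscl hcmb hlow hK hx hx1 k (d.count k)).2
  refine h1.trans (le_of_eq ?_)
  rw [Finset.prod_mul_distrib, ← Real.exp_sum, Finset.sum_add_distrib]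
  have h2 : (d.map (fun k => ∑ i ∈ Ico (K + 1) (k + 1), x i * ((k : ℝ) / x 1) ^ i / i)).sum =
      ∑ k ∈ d.toFinset, ((d.count k : ℕ) : ℝ) * del K x k := by
    rw [Finset.sum_list_map_count]
    apply Finset.sum_congr rfl
    intro k _
    rw [nsmul_eq_mul]
    rfl
  rw [h2]

end Pool.Agent.UMG.A.H88
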