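import Pool.Agent.UMG.StmtsD

/-!
# Squad UMG (MP_34c13a_lc), block D, row VAL: every output has the right degrees
-/

set_option autoImplicit false

namespace Pool.Agent.UMG.D.H88

open Finset Pool.Agent.UMG

/-! ### numbers of ends of edges -/

/-- the number of the ends of the edges of `E` at `v` -/
def en (E : List (ℕ × ℕ)) (v : ℕ) : ℕ :=
  (E.map (fun e => (if e.1 = v then 1 else 0) + (if e.2 = v then 1 else 0))).sum

theorem en_append (E E' : List (ℕ × ℕ)) (v : ℕ) : en (E ++ E') v = en E v + en E' v := by
  unfold en
  rw [List.map_append, List.sum_append]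

theorem list_range_sum (n : ℕ) (f : ℕ → ℕ) : ((List.range n).map f).sum = ∑ t ∈ range n, f t := by
  induction n with
  | zero => rfl
  | succ n ih =>
    rw [List.range_succ, List.map_append, List.sum_append, ih, Finset.sum_range_succ]
    simp

theorem count_fst {n : ℕ} (v : ℕ) (E : List (ℕ × ℕ)) (h : ∀ e ∈ E, e.1 < n ∧ e.2 < n) :
    ∑ w : Fin n, E.count (v, (w : ℕ)) = (E.map (fun e => if e.1 = v then 1 else 0)).sum := by
  induction E with
  | nil => simp
  | cons e E ih =>
    have h1 := h e (by simp)
    rw [List.map_cons, List.sum_cons, ← ih (fun e' he' => h e' (List.mem_cons_of_mem _ he'))]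
    simp only [List.count_cons]
    rw [Finset.sum_add_distrib, add_comm]
    congr 1
    obtain ⟨a, b⟩ := e
    by_cases hv : a = v
    · subst hv
      rw [Finset.sum_eq_single (⟨b, h1.2⟩ : Fin n)]
      · simp
      · intro w _ hw
        have : ¬ (b = (w : ℕ)) := fun hbw => hw (Fin.ext hbw.symm)
        simp [this]
      · intro hw
        exact absurd (Finset.mem_univ _) hw
    · rw [if_neg hv]
      apply Finset.sum_eq_zero
      intro w _
      simp [hv]

theorem count_snd {n : ℕ} (v : ℕ) (E : List (ℕ × ℕ)) (h : ∀ e ∈ E, e.1 < n ∧ e.2 < n) :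
    ∑ w : Fin n, E.count ((w : ℕ), v) = (E.map (fun e => if e.2 = v then 1 else 0)).sum := by
  induction E with
  | nil => simp
  | cons e E ih =>
    have h1 := h e (by simp)
    rw [List.map_cons, List.sum_cons, ← ih (fun e' he' => h e' (List.mem_cons_of_mem _ he'))]
    simp only [List.count_cons]
    rw [Finset.sum_add_distrib, add_comm]
    congr 1
    obtain ⟨a, b⟩ := e
    by_cases hv : b = v
    · subst hv
      rw [Finset.sum_eq_single (⟨a, h1.1⟩ : Fin n)]
      · simp
      · intro w _ hw
        have : ¬ (a = (w : ℕ)) := fun hbw => hw (Fin.ext hbw.symm)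
        simp [this]
      · intro hw
        exact absurd (Finset.mem_univ _) hw
    · rw [if_neg hv]
      apply Finset.sum_eq_zero
      intro w _
      simp [hv]

theorem deg_gr {n : ℕ} (E : List (ℕ × ℕ)) (h : ∀ e ∈ E, e.1 < n ∧ e.2 < n) (v : Fin n) :
    deg (gr n E) v = en E v := by
  unfold deg
  have h1 : gr n E v v = ∑ w : Fin n, if v = w then E.count ((w : ℕ), (v : ℕ)) else 0 := by
    rw [Finset.sum_ite_eq]
    simp [gr]
  rw [h1, ← Finset.sum_add_distrib]
  have h2 : ∀ w : Fin n, gr n E v w + (if v = w then E.count ((w : ℕ), (v : ℕ)) else 0) =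
      E.count ((v : ℕ), (w : ℕ)) + E.count ((w : ℕ), (v : ℕ)) := by
    intro w
    unfold gr
    split_ifs
    · rfl
    · rw [add_zero]
  rw [Finset.sum_congr rfl (fun w _ => h2 w), Finset.sum_add_distrib, count_fst _ _ h,
    count_snd _ _ h]
  unfold en
  rw [List.sum_map_add]

/-! ### one bundle -/

/-- the number of the half-edges of the bundle `b` (of size `j`) at `v` -/
def hb (j : ℕ) (b : ℕ × ℕ × ℕ) (v : ℕ) : ℕ := ∑ t ∈ range j, if b.1 + t % b.2.1 = v then 1 else 0

theorem en_self {j : ℕ} (hj : 2 ∣ j) (b : ℕ × ℕ × ℕ) (v : ℕ) : en (selfE j b) v = hb j b v := by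
  unfold en selfE hb
  rw [List.map_map, list_range_sum]
  obtain ⟨m, rfl⟩ := hj
  have h1 : 2 * m / 2 = m := by omega
  rw [h1]
  have h2 : 2 * m = m + m := by ring
  rw [h2, Finset.sum_range_add, ← Finset.sum_add_distrib]
  apply Finset.sum_congr rfl
  intro t _
  show (if b.1 + t % b.2.1 = v then 1 else 0) + (if b.1 + (t + m) % b.2.1 = v then 1 else 0) = _
  rw [add_comm t m]

theorem sum_shift (j : ℕ) (g : ℕ → ℕ) (hg : ∀ t, g (t + j) = g t) (r : ℕ) :
    ∑ t ∈ range j, g (t + r) = ∑ t ∈ range j, g t := by
  induction r with
  | zero => rfl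
  | succ r ih =>
    rw [← ih]
    have h1 := Finset.sum_range_succ (fun t => g (t + r)) j
    have h2 := Finset.sum_range_succ' (fun t => g (t + r)) j
    have h3 : g (j + r) = g (0 + r) := by
      rw [Nat.add_comm j r, hg, Nat.zero_add]
    have h4 : ∑ t ∈ range j, g (t + (r + 1)) = ∑ t ∈ range j, g (t + 1 + r) := by
      apply Finset.sum_congr rfl
      intro t _
      congr 1
      ring
    rw [h4]
    omega

theorem en_pair {j r : ℕ} {b b' : ℕ × ℕ × ℕ} (hb' : b'.2.1 ∣ j) (v : ℕ) :
    en (pairE j r b b') v = hb j b v + hb j b' v := by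
  unfold en pairE
  rw [List.map_map, list_range_sum]
  have h1 : ∑ t ∈ range j, (((fun e : ℕ × ℕ => (if e.1 = v then 1 else 0) +
      (if e.2 = v then 1 else 0)) ∘ fun t => (b.1 + t % b.2.1, b'.1 + (t + r) % b'.2.1)) t) =
      ∑ t ∈ range j, ((if b.1 + t % b.2.1 = v then 1 else 0) +
        (if b'.1 + (t + r) % b'.2.1 = v then 1 else 0)) := rfl
  rw [h1, Finset.sum_add_distrib]
  congr 1
  apply sum_shift j (fun t => if b'.1 + t % b'.2.1 = v then 1 else 0)
  intro t
  have h2 : (t + j) % b'.2.1 = t % b'.2.1 := by
    obtain ⟨m, hm⟩ := hb'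
    rw [hm, Nat.add_mul_mod_self_left]
  simp only [h2]

/-! ### the matching -/

theorem F_succ (j m : ℕ) : F j (m + 1) = sb j m + m * (j * F j (m - 1)) := by
  cases m with
  | zero => simp [F, sb]
  | succ c =>
    simp only [F, sb, Nat.add_sub_cancel]
    ring

theorem getD_mem {L : List (ℕ × ℕ × ℕ)} {i : ℕ} (h : i < L.length) (z : ℕ × ℕ × ℕ) :
    L.getD i z = L[i] := by
  simp [List.getD_eq_getElem?_getD, h]

/-- the recursion: the index of the partner and the next number are in the right range -/
theorem step_range {j m x : ℕ} (hx : x < F j (m + 1)) (hs : ¬ x < sb j m) :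
    pI j m x < m ∧ xI j m x < F j (m - 1) := by
  rw [F_succ] at hx
  have h1 : x - sb j m < m * (j * F j (m - 1)) := by omega
  have h2 : 0 < j * F j (m - 1) := by
    rcases Nat.eq_zero_or_pos (j * F j (m - 1)) with h | h
    · rw [h] at h1
      omega
    · exact h
  constructor
  · unfold pI
    rw [Nat.div_lt_iff_lt_mul h2]
    exact h1
  · unfold xI
    refine Nat.mod_lt _ (Nat.pos_of_ne_zero (fun h => ?_))
    rw [h, Nat.mul_zero] at h2
    exact lt_irrefl _ h2

theorem mt_main (j n : ℕ) : ∀ (N : ℕ) (L : List (ℕ × ℕ × ℕ)) (x : ℕ), L.length = N →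
    x < F j L.length → (∀ b ∈ L, b.2.1 ∣ j ∧ 1 ≤ b.2.1 ∧ b.1 + b.2.1 ≤ n) →
      (∀ e ∈ mt j L x, e.1 < n ∧ e.2 < n) ∧
      ∀ v, en (mt j L x) v = (L.map (fun b => hb j b v)).sum := by
  intro N
  induction N using Nat.strong_induction_on with
  | _ N ih =>
    intro L x hN hx hL
    cases L with
    | nil =>
      rw [mt]
      refine ⟨?_, ?_⟩
      · intro e he
        simp at he
      · intro v
        simp [en]
    | cons b L =>
      have hb0 := hL b (by simp)
      have hL' : ∀ b' ∈ L, b'.2.1 ∣ j ∧ 1 ≤ b'.2.1 ∧ b'.1 + b'.2.1 ≤ n :=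
        fun b' h => hL b' (List.mem_cons_of_mem _ h)
      rw [List.length_cons] at hx hN
      rw [mt]
      by_cases hs : x < sb j L.length
      · rw [if_pos hs]
        have h2 : 2 ∣ j ∧ x < F j L.length := by
          unfold sb at hs
          split_ifs at hs with h
          · exact ⟨h, hs⟩
          · omega
        obtain ⟨h3, h4⟩ := ih L.length (by omega) L x rfl h2.2 hL'
        refine ⟨?_, ?_⟩
        · intro e he
          rcases List.mem_append.1 he with he | he
          · unfold selfE at he
            obtain ⟨t, _, rfl⟩ := List.mem_map.1 he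
            have h5 := Nat.mod_lt t (Nat.lt_of_lt_of_le Nat.zero_lt_one hb0.2.1)
            have h6 := Nat.mod_lt (t + j / 2) (Nat.lt_of_lt_of_le Nat.zero_lt_one hb0.2.1)
            constructor
            · show b.1 + t % b.2.1 < n
              have := hb0.2.2
              omega
            · show b.1 + (t + j / 2) % b.2.1 < n
              have := hb0.2.2
              omega
          · exact h3 e he
        · intro v
          rw [en_append, en_self h2.1, h4 v, List.map_cons, List.sum_cons]
      · rw [if_neg hs]
        obtain ⟨h1, h2⟩ := step_range hx hs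
        have hmem : L.getD (pI j L.length x) (0, 1, 1) = L[pI j L.length x] := getD_mem h1 _
        have hin : L[pI j L.length x] ∈ L := List.getElem_mem h1
        have hlen : (L.eraseIdx (pI j L.length x)).length = L.length - 1 :=
          List.length_eraseIdx_of_lt h1
        have hsub : ∀ b' ∈ L.eraseIdx (pI j L.length x), b' ∈ L :=
          fun b' h => List.mem_of_mem_eraseIdx h
        obtain ⟨h3, h4⟩ := ih (L.length - 1) (by omega) (L.eraseIdx (pI j L.length x))
          (xI j L.length x) hlen (by rw [hlen]; exact h2) (fun b' h => hL' b' (hsub b' h))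
        have hb1 := hL' _ hin
        refine ⟨?_, ?_⟩
        · intro e he
          rcases List.mem_append.1 he with he | he
          · rw [hmem] at he
            unfold pairE at he
            obtain ⟨t, _, rfl⟩ := List.mem_map.1 he
            have h5 := Nat.mod_lt t (Nat.lt_of_lt_of_le Nat.zero_lt_one hb0.2.1)
            have h6 := Nat.mod_lt (t + rI j L.length x)
              (Nat.lt_of_lt_of_le Nat.zero_lt_one hb1.2.1)
            constructor
            · show b.1 + t % b.2.1 < n
              have := hb0.2.2
              omega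
            · show L[pI j L.length x].1 + (t + rI j L.length x) % L[pI j L.length x].2.1 < n
              have := hb1.2.2
              omega
          · exact h3 e he
        · intro v
          rw [en_append, hmem, en_pair hb1.1, h4 v, List.map_cons, List.sum_cons, add_assoc]
          congr 1
          have hp := (List.getElem_cons_eraseIdx_perm h1).map (fun b => hb j b v)
          have hp2 := hp.sum_eq
          rw [List.map_cons, List.sum_cons] at hp2
          exact hp2

/-! ### the bundles of a code -/

theorem hb_mul (v0 l v : ℕ) (i : ℕ) : hb (l * i) (v0, l, i) v =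
    if v0 ≤ v ∧ v < v0 + l then i else 0 := by
  unfold hb
  have key : ∀ i', ∑ t ∈ range (l * i'), (if v0 + t % l = v then 1 else 0) =
      if v0 ≤ v ∧ v < v0 + l then i' else 0 := by
    intro i'
    induction i' with
    | zero => simp
    | succ i' ih =>
      rw [Nat.mul_succ, Finset.sum_range_add, ih]
      have h1 : ∑ s ∈ range l, (if v0 + (l * i' + s) % l = v then 1 else 0) =
          ∑ s ∈ range l, if v0 + s = v then 1 else 0 := by
        apply Finset.sum_congr rfl
        intro s hs
        rw [mem_range] at hs
        rw [Nat.mul_add_mod, Nat.mod_eq_of_lt hs]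
      rw [h1]
      by_cases hv : v0 ≤ v ∧ v < v0 + l
      · rw [if_pos hv, if_pos hv]
        congr 1
        rw [Finset.sum_eq_single (v - v0)]
        · rw [if_pos (by omega)]
        · intro s _ hs
          rw [if_neg (by omega)]
        · intro hs
          rw [mem_range] at hs
          omega
      · rw [if_neg hv, if_neg hv, zero_add]
        apply Finset.sum_eq_zero
        intro s hs
        rw [mem_range] at hs
        rw [if_neg (by omega)]
  exact key i

theorem bund_props : ∀ (c : Code) (d : List ℕ) (v0 : ℕ), Cd d c →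
    (∀ b ∈ bund v0 c, 1 ≤ bsz b ∧ bsz b ≤ d.sum ∧ 1 ≤ b.2.1 ∧ b.1 + b.2.1 ≤ v0 + d.length) ∧
    ∀ v, ((bund v0 c).map (fun b => hb (bsz b) b v)).sum =
      if v0 ≤ v then d.getD (v - v0) 0 else 0 := by
  intro c
  induction c with
  | nil =>
    intro d v0 h
    have hd : d = [] := h
    subst hd
    refine ⟨?_, ?_⟩
    · intro b hb
      simp [bund] at hb
    · intro v
      simp [bund]
  | cons lp c ih =>
    obtain ⟨l, p⟩ := lp
    intro d v0 h
    obtain ⟨k, t, rfl, hk, hl, hp, hc⟩ := h
    obtain ⟨h1, h2⟩ := ih t (v0 + l) hc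
    have hsum : (List.replicate l k ++ t).sum = l * k + t.sum := by
      rw [List.sum_append, List.sum_replicate, smul_eq_mul]
    have hlen : (List.replicate l k ++ t).length = l + t.length := by
      rw [List.length_append, List.length_replicate]
    refine ⟨?_, ?_⟩
    · intro b hb
      rw [bund] at hb
      rcases List.mem_append.1 hb with hb | hb
      · obtain ⟨i, hi, rfl⟩ := List.mem_map.1 hb
        have hi1 := hp i hi
        have hi2 : i ≤ k := by
          rw [← hk]
          exact List.single_le_sum (fun _ _ => Nat.zero_le _) i hi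
        refine ⟨?_, ?_, hl, ?_⟩
        · show 1 ≤ l * i
          exact Nat.mul_pos hl hi1
        · show l * i ≤ _
          rw [hsum]
          have := Nat.mul_le_mul_left l hi2
          omega
        · show v0 + l ≤ _
          rw [hlen]
          omega
      · obtain ⟨a1, a2, a3, a4⟩ := h1 b hb
        refine ⟨a1, ?_, a3, ?_⟩
        · rw [hsum]
          omega
        · rw [hlen]
          omega
    · intro v
      rw [bund, List.map_append, List.sum_append, h2 v, List.map_map]
      have h3 : (p.map ((fun b => hb (bsz b) b v) ∘ fun i => (v0, l, i))).sum =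
          if v0 ≤ v ∧ v < v0 + l then k else 0 := by
        have h4 : ((fun b => hb (bsz b) b v) ∘ fun i => (v0, l, i)) =
            fun i => if v0 ≤ v ∧ v < v0 + l then i else 0 := by
          funext i
          exact hb_mul v0 l v i
        rw [h4]
        by_cases hv : v0 ≤ v ∧ v < v0 + l
        · simp only [if_pos hv]
          rw [List.map_id', hk]
        · simp only [if_neg hv]
          simp
      rw [h3]
      by_cases hv0 : v0 ≤ v
      · rw [if_pos hv0]
        by_cases hv1 : v < v0 + l
        · rw [if_pos ⟨hv0, hv1⟩, if_neg (by omega), add_zero]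
          rw [List.getD_append _ _ _ _ (by rw [List.length_replicate]; omega)]
          rw [List.getD_replicate _ (show v - v0 < l by omega)]
        · rw [if_neg (by omega), if_pos (by omega), zero_add]
          rw [List.getD_append_right _ _ _ _ (by rw [List.length_replicate]; omega),
            List.length_replicate]
          congr 1
          omega
      · rw [if_neg hv0, if_neg (by omega), if_neg (by omega)]

/-! ### all edges -/

theorem sum_by_size (M v : ℕ) (L : List (ℕ × ℕ × ℕ)) (h : ∀ b ∈ L, 1 ≤ bsz b ∧ bsz b ≤ M) :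
    ∑ j ∈ range M, ((L.filter (fun b => bsz b = j + 1)).map (fun b => hb (j + 1) b v)).sum =
      (L.map (fun b => hb (bsz b) b v)).sum := by
  induction L with
  | nil => simp
  | cons b L ih =>
    have hb1 := h b (by simp)
    rw [List.map_cons, List.sum_cons, ← ih (fun b' hb' => h b' (List.mem_cons_of_mem _ hb'))]
    have h1 : ∀ j ∈ range M,
        (((b :: L).filter (fun b => bsz b = j + 1)).map (fun b => hb (j + 1) b v)).sum =
          (if j = bsz b - 1 then hb (bsz b) b v else 0) +
            ((L.filter (fun b => bsz b = j + 1)).map (fun b => hb (j + 1) b v)).sum := by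
      intro j _
      by_cases hj : bsz b = j + 1
      · rw [List.filter_cons_of_pos (by simpa using hj), List.map_cons, List.sum_cons,
          if_pos (by omega), hj]
      · rw [List.filter_cons_of_neg (by simpa using hj), if_neg (by omega), zero_add]
    rw [Finset.sum_congr rfl h1, Finset.sum_add_distrib]
    congr 1
    rw [Finset.sum_ite_eq' (range M) (bsz b - 1), if_pos (by rw [mem_range]; omega)]

theorem val : ValStmt := by
  intro d c x hc hx
  obtain ⟨h1, h2⟩ := bund_props c d 0 hc
  have hj : ∀ j ∈ List.range d.sum,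
      (∀ e ∈ mt (j + 1) ((bund 0 c).filter (fun b => bsz b = j + 1)) (x (j + 1)),
        e.1 < d.length ∧ e.2 < d.length) ∧
      ∀ v, en (mt (j + 1) ((bund 0 c).filter (fun b => bsz b = j + 1)) (x (j + 1))) v =
        (((bund 0 c).filter (fun b => bsz b = j + 1)).map (fun b => hb (j + 1) b v)).sum := by
    intro j hj
    refine mt_main (j + 1) d.length _ _ _ rfl ?_ ?_
    · have h3 := hx j (List.mem_range.1 hj)
      unfold cnt at h3
      rw [List.countP_eq_length_filter] at h3
      exact h3
    · intro b hb
      obtain ⟨hb1, hb2⟩ := List.mem_filter.1 hb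
      obtain ⟨a1, a2, a3, a4⟩ := h1 b hb1
      refine ⟨?_, a3, ?_⟩
      · have hb3 : bsz b = j + 1 := by simpa using hb2
        rw [← hb3]
        exact Dvd.intro _ rfl
      · rw [Nat.zero_add] at a4
        exact a4
  have hE : ∀ e ∈ edg d.sum c x, e.1 < d.length ∧ e.2 < d.length := by
    intro e he
    unfold edg at he
    obtain ⟨j, hj1, hj2⟩ := List.mem_flatMap.1 he
    exact (hj j hj1).1 e hj2
  have hen : ∀ v, en (edg d.sum c x) v = ((bund 0 c).map (fun b => hb (bsz b) b v)).sum := by
    intro v
    rw [← sum_by_size d.sum v (bund 0 c) (fun b hb => ⟨(h1 b hb).1, (h1 b hb).2.1⟩)]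
    rw [← list_range_sum]
    unfold edg
    have key : ∀ l : List ℕ, (∀ j ∈ l, j ∈ List.range d.sum) →
        en (l.flatMap (fun j => mt (j + 1) ((bund 0 c).filter (fun b => bsz b = j + 1))
          (x (j + 1)))) v =
        (l.map (fun j => (((bund 0 c).filter (fun b => bsz b = j + 1)).map
          (fun b => hb (j + 1) b v)).sum)).sum := by
      intro l
      induction l with
      | nil =>
        intro _
        simp [en]
      | cons j l ih =>
        intro hl
        rw [List.flatMap_cons, en_append, List.map_cons, List.sum_cons,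
          ih (fun j' hj' => hl j' (List.mem_cons_of_mem _ hj')), (hj j (hl j (by simp))).2 v]
    exact key _ (fun j hj => hj)
  have hdeg : ∀ v : Fin d.length, deg (gr d.length (edg d.sum c x)) v = d.get v := by
    intro v
    rw [deg_gr _ hE, hen, h2, if_pos (Nat.zero_le _), Nat.sub_zero]
    rw [List.getD_eq_getElem _ _ v.2]
    rfl
  constructor
  · intro v w
    unfold gr
    by_cases hvw : v = w
    · rw [hvw]
    · rw [if_neg hvw, if_neg (fun h => hvw h.symm), add_comm]
  · have h3 : deg (gr d.length (edg d.sum c x)) = d.get := funext hdeg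
    rw [h3, Fin.univ_val_map, List.ofFn_get]

end Pool.Agent.UMG.D.H88
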